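import Pool.Agent.Helper99.DF.St

set_option autoImplicit false

namespace Pool.Agent.Helper86.DF

open Pool.Agent.Helper99.DF

/-- Extension by zero. -/
def ext {K : Type} [Field K] (S : Finset ℕ) (v : S → K) (k : ℕ) : K :=
  if h : k ∈ S then v ⟨k, h⟩ else 0

theorem ext_add {K : Type} [Field K] (S : Finset ℕ) (v w : S → K) (k : ℕ) :
    ext S (v + w) k = ext S v k + ext S w k := by
  unfold ext
  split_ifs <;> simp

theorem ext_smul {K : Type} [Field K] (S : Finset ℕ) (a : K) (v : S → K) (k : ℕ) :
    ext S (a • v) k = a * ext S v k := by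
  unfold ext
  split_ifs <;> simp

theorem ext_mem {K : Type} [Field K] (S : Finset ℕ) (v : S → K) (k : S) :
    ext S v k = v k := by
  unfold ext
  simp

open Classical in
/-- The linearised operator. -/
noncomputable def Lin {K : Type} [Field K] (S Y : Finset ℕ) (G : ℕ → K) :
    (S → K) →ₗ[K] (S → K) where
  toFun v k := if (k : ℕ) ∈ Y then 2 * G k * ext S v k - G ((k : ℕ) - 1) * ext S v ((k : ℕ) + 1)
    - G ((k : ℕ) + 1) * ext S v ((k : ℕ) - 1) else 2 * ext S v k
  map_add' v w := by
    funext k
    simp only [ext_add, Pi.add_apply]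
    split_ifs <;> ring
  map_smul' a v := by
    funext k
    simp only [ext_smul, Pi.smul_apply, RingHom.id_apply, smul_eq_mul]
    split_ifs <;> ring

theorem Lin_apply {K : Type} [Field K] (S Y : Finset ℕ) (G : ℕ → K) (v : S → K) (k : S) :
    Lin S Y G v k = if (k : ℕ) ∈ Y then 2 * G k * ext S v k - G ((k : ℕ) - 1) * ext S v ((k : ℕ) + 1)
    - G ((k : ℕ) + 1) * ext S v ((k : ℕ) - 1) else 2 * ext S v k := by
  simp only [Lin, LinearMap.coe_mk, AddHom.coe_mk]

theorem hSOL (h1 : StLAM) (h2 : StAE1) : StSOL := by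
  intro K Z c M hc hM S Y F θ R hYS hY hF1 hFK hFY hθ1 hθ2 hR
  classical
  obtain ⟨hadd, hmul, hconst, -⟩ := h2 K Z c M hc hM
  have h2c : ((2 : K) : ℝ) = 2 := rfl
  let G : ℕ → K := fun k => if h : k ∈ S then ⟨F k, hFK k h⟩ else 0
  have hG : ∀ k ∈ S, ((G k : K) : ℝ) = F k := by
    intro k hk
    simp [G, hk]
  have hinj : Function.Injective (Lin S Y G) := by
    rw [injective_iff_map_eq_zero]
    intro v hv
    have hker : ∀ k ∈ S, ((ext S v k : K) : ℝ) = 0 := by
      apply h1 S Y F (fun k => ((ext S v k : K) : ℝ)) hYS hY hF1 hFY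
      · intro k hk hkY
        have := congrFun hv ⟨k, hk⟩
        rw [Lin_apply, if_neg hkY] at this
        have h3 : ((2 * ext S v k : K) : ℝ) = 0 := by
          rw [this]; simp
        push_cast at h3
        rw [h2c] at h3
        simpa using h3
      · intro k hkY
        have hk := hYS hkY
        have := congrFun hv ⟨k, hk⟩
        rw [Lin_apply, if_pos hkY] at this
        have h3 : ((2 * G k * ext S v k - G (k - 1) * ext S v (k + 1)
            - G (k + 1) * ext S v (k - 1) : K) : ℝ) = 0 := by
          rw [this]; simp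
        push_cast at h3
        rw [h2c, hG k hk, hG _ (hY k hkY).1, hG _ (hY k hkY).2] at h3
        linarith
    funext k
    have h4 := hker k k.2
    rw [ext_mem] at h4
    exact_mod_cast h4
  have hsurj : Function.Surjective (Lin S Y G) := LinearMap.injective_iff_surjective.1 hinj
  choose w hw using hsurj
  let V : S → ℕ → ℝ := fun j k => ((ext S (w (Pi.single j 1)) k : K) : ℝ)
  have hVK : ∀ j k, V j k ∈ K := fun j k => (ext S (w (Pi.single j 1)) k).2
  have hV1 : ∀ (j : S) (k : ℕ), k ∈ S → k ∉ Y → 2 * V j k = if (j : ℕ) = k then 1 else 0 := by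
    intro j k hk hkY
    have := congrFun (hw (Pi.single j 1)) ⟨k, hk⟩
    rw [Lin_apply, if_neg hkY] at this
    have h3 : ((2 * ext S (w (Pi.single j 1)) k : K) : ℝ)
        = (((Pi.single j 1 : S → K) ⟨k, hk⟩ : K) : ℝ) := by rw [this]
    push_cast at h3
    rw [h2c] at h3
    show 2 * ((ext S (w (Pi.single j 1)) k : K) : ℝ) = _
    rw [h3]
    by_cases hjk : (j : ℕ) = k
    · have : j = ⟨k, hk⟩ := Subtype.ext hjk
      subst this
      simp
    · have : (⟨k, hk⟩ : S) ≠ j := fun h => hjk (by rw [← h])
      simp [Pi.single_eq_of_ne this, hjk]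
  have hV2 : ∀ (j : S) (k : ℕ), k ∈ Y → 2 * F k * V j k - F (k - 1) * V j (k + 1)
      - F (k + 1) * V j (k - 1) = if (j : ℕ) = k then 1 else 0 := by
    intro j k hkY
    have hk := hYS hkY
    have := congrFun (hw (Pi.single j 1)) ⟨k, hk⟩
    rw [Lin_apply, if_pos hkY] at this
    have h3 : ((2 * G k * ext S (w (Pi.single j 1)) k - G (k - 1) * ext S (w (Pi.single j 1)) (k + 1)
            - G (k + 1) * ext S (w (Pi.single j 1)) (k - 1) : K) : ℝ)
        = (((Pi.single j 1 : S → K) ⟨k, hk⟩ : K) : ℝ) := by rw [this]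
    push_cast at h3
    rw [h2c, hG k hk, hG _ (hY k hkY).1, hG _ (hY k hkY).2] at h3
    show 2 * F k * ((ext S (w (Pi.single j 1)) k : K) : ℝ) -
      F (k - 1) * ((ext S (w (Pi.single j 1)) (k + 1) : K) : ℝ)
      - F (k + 1) * ((ext S (w (Pi.single j 1)) (k - 1) : K) : ℝ) = _
    rw [h3]
    by_cases hjk : (j : ℕ) = k
    · have : j = ⟨k, hk⟩ := Subtype.ext hjk
      subst this
      simp
    · have : (⟨k, hk⟩ : S) ≠ j := fun h => hjk (by rw [← h])
      simp [Pi.single_eq_of_ne this, hjk]
  have hsum : ∀ (t : ℕ) (k : ℕ) (hk : k ∈ S),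
      ∑ j : S, (if (j : ℕ) = k then (1 : ℝ) else 0) * R t j = R t k := by
    intro t k hk
    rw [Finset.sum_eq_single (⟨k, hk⟩ : S)]
    · simp
    · intro j _ hj
      have : (j : ℕ) ≠ k := fun h => hj (Subtype.ext h)
      simp [this]
    · simp
  have hsol : ∀ t, ∀ k ∈ S, θ t k = ∑ j : S, V j k * R t j := by
    intro t
    have h5 : ∀ k ∈ S, θ t k - ∑ j : S, V j k * R t j = 0 := by
      apply h1 S Y F (fun k => θ t k - ∑ j : S, V j k * R t j) hYS hY hF1 hFY
      · intro k hk hkY
        have h6 : 2 * ∑ j : S, V j k * R t j = R t k := by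
          rw [← hsum t k hk, Finset.mul_sum]
          apply Finset.sum_congr rfl
          intro j _
          rw [← hV1 j k hk hkY]
          ring
        have := hθ1 t k hk hkY
        show θ t k - ∑ j : S, V j k * R t j = 0
        linarith
      · intro k hkY
        have hk := hYS hkY
        have h6 : 2 * F k * (∑ j : S, V j k * R t j) - F (k - 1) * (∑ j : S, V j (k + 1) * R t j)
            - F (k + 1) * (∑ j : S, V j (k - 1) * R t j) = R t k := by
          rw [← hsum t k hk, Finset.mul_sum, Finset.mul_sum, Finset.mul_sum,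
            ← Finset.sum_sub_distrib, ← Finset.sum_sub_distrib]
          apply Finset.sum_congr rfl
          intro j _
          rw [← hV2 j k hkY]
          ring
        have := hθ2 t k hkY
        show 2 * F k * (θ t k - ∑ j : S, V j k * R t j)
          = F (k - 1) * (θ t (k + 1) - ∑ j : S, V j (k + 1) * R t j)
          + F (k + 1) * (θ t (k - 1) - ∑ j : S, V j (k - 1) * R t j)
        linarith
    intro k hk
    have := h5 k hk
    linarith
  intro k hk
  have hAE : ∀ s : Finset S, AE K Z c M (fun t => ∑ j ∈ s, V j k * R t j) := by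
    intro s
    induction s using Finset.induction_on with
    | empty =>
      have := hconst 0 K.zero_mem
      simpa using this
    | insert a s ha ih =>
      have h7 := hadd _ _ (hmul _ _ (hconst (V a k) (hVK a k)) (hR a a.2)) ih
      have h8 : (fun t => ∑ j ∈ insert a s, V j k * R t j)
          = fun t => V a k * R t a + ∑ j ∈ s, V j k * R t j := by
        funext t
        rw [Finset.sum_insert ha]
      rw [h8]
      exact h7
  have h9 : (fun t => θ t k) = fun t => ∑ j : S, V j k * R t j := by
    funext t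
    exact hsol t k hk
  rw [h9]
  exact hAE Finset.univ

end Pool.Agent.Helper86.DF
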